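import Pool.Agent.H27.QC

namespace Pool.Agent.Results.MP_74870a_nt.Products
open Finset Polynomial Pool.Agent.H27.QC Pool.Agent.H27.QC.Loc

/-- the shifted factorial `(a; b)_k` -/
def poch {K : Type*} [Field K] (a b : K) (k : ℕ) : K := ∏ i ∈ range k, (1 - a * b ^ i)

/-- `R_t`, as a function of the field element `q` -/
def R {K : Type*} [Field K] (q : K) (n t : ℕ) : K :=
  poch q (q ^ 2) ((n ^ t - 1) / 4) * poch (q ^ (2 * n)) (q ^ (2 * n)) ((n ^ (t - 1) - 1) / 4) /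
    (poch (q ^ 2) (q ^ 2) ((n ^ t - 1) / 4) * poch (q ^ n) (q ^ (2 * n)) ((n ^ (t - 1) - 1) / 4))

variable {K : Type*} [Field K]

theorem split (F : ℕ → K) (n M : ℕ) : ∏ j ∈ range M, F (j + 1)
    = (∏ j ∈ range M, if n ∣ j + 1 then 1 else F (j + 1)) * ∏ j ∈ range (M / n), F (n * (j + 1)) := by
  induction M with
  | zero => simp
  | succ M ih =>
    rw [prod_range_succ, prod_range_succ, ih, Nat.succ_div]
    split_ifs with h
    · obtain ⟨c, hc⟩ := h
      have h0 : 0 < n := Nat.pos_of_ne_zero (by rintro rfl; simp at hc)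
      have h1 : M / n + 1 = c := by
        have := Nat.succ_div (a := M) (b := n)
        rw [if_pos ⟨c, hc⟩, hc, Nat.mul_div_cancel_left _ h0] at this
        exact this.symm
      rw [prod_range_succ, h1, ← hc]; ring
    · rw [add_zero]; ring

def alt (x : ℕ → K) (j : ℕ) : K := if Even j then (x j)⁻¹ else x j

theorem alt_prod (x : ℕ → K) (M : ℕ) : ∏ j ∈ range (2 * M), alt x (j + 1)
    = (∏ i ∈ range M, x (2 * i + 1)) / ∏ i ∈ range M, x (2 * i + 2) := by
  induction M with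
  | zero => simp
  | succ M ih =>
    rw [Nat.mul_succ, prod_range_succ, prod_range_succ, ih, prod_range_succ, prod_range_succ, alt,
      alt, if_neg (by simp), if_pos (by grind), mul_div_mul_comm, div_eq_mul_inv (x (2 * M + 1))]
    ring

def W (x : ℕ → K) (n M : ℕ) : K := ∏ j ∈ range M, if n ∣ j + 1 then 1 else alt x (j + 1)

theorem W_eq (x : ℕ → K) (hx : ∀ j, x (j + 1) ≠ 0) {n M M' : ℕ} (hn : Odd n)
    (h : 2 * M / n = 2 * M') : W x n (2 * M)
      = (∏ i ∈ range M, x (2 * i + 1)) * (∏ i ∈ range M', x (n * (2 * i + 2)))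
        / ((∏ i ∈ range M, x (2 * i + 2)) * ∏ i ∈ range M', x (n * (2 * i + 1))) := by
  have h1 := split (alt x) n (2 * M)
  have h2 : ∀ j, alt x (n * (j + 1)) = alt (fun j => x (n * j)) (j + 1) := fun j => by
    simp only [alt, Nat.even_mul, Nat.not_even_iff_odd.mpr hn, false_or]
  simp only [h2] at h1
  rw [h, alt_prod, alt_prod] at h1
  have h3 : ∀ j, x (n * (j + 1)) ≠ 0 := fun j => by
    obtain ⟨c, rfl⟩ := hn
    rw [show (2 * c + 1) * (j + 1) = (2 * c * (j + 1) + j) + 1 by ring]; exact hx _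
  have h4 : ∏ i ∈ range M', x (n * (2 * i + 1)) ≠ 0 := prod_ne_zero_iff.mpr fun i _ => h3 _
  have h5 : ∏ i ∈ range M', x (n * (2 * i + 2)) ≠ 0 := prod_ne_zero_iff.mpr fun i _ => h3 _
  rw [mul_div_mul_comm, h1, W]
  field_simp

theorem div4 {n : ℕ} (hn : n % 4 = 1) (h1 : 1 < n) (t : ℕ) : n ^ t % 4 = 1 ∧
    2 * ((n ^ (t + 1) - 1) / 4) / n = 2 * ((n ^ t - 1) / 4) := by
  have h : ∀ t, n ^ t % 4 = 1 := fun t => by rw [Nat.pow_mod, hn]; simp
  refine ⟨h t, ?_⟩
  obtain ⟨a, rfl⟩ : ∃ a, n = 4 * a + 1 := ⟨n / 4, by omega⟩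
  obtain ⟨b, hb⟩ : ∃ b, (4 * a + 1) ^ t = 4 * b + 1 := ⟨(4 * a + 1) ^ t / 4, by have := h t; omega⟩
  rw [pow_succ, hb, show (4 * b + 1) * (4 * a + 1) = 4 * (b * (4 * a + 1) + a) + 1 by ring]
  simp only [Nat.add_sub_cancel, Nat.mul_div_cancel_left _ (show 0 < 4 by norm_num)]
  rw [show 2 * (b * (4 * a + 1) + a) = 2 * a + (4 * a + 1) * (2 * b) by ring,
    Nat.add_mul_div_left _ _ (by omega), Nat.div_eq_of_lt (by omega), zero_add]

theorem R_eq (q : K) (hq : ∀ j, 1 - q ^ (j + 1) ≠ 0) {n : ℕ} (hn : n % 4 = 1) (h1 : 1 < n) (t : ℕ) :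
    R q n (t + 1) = W (fun j => 1 - q ^ j) n (2 * ((n ^ (t + 1) - 1) / 4)) := by
  rw [W_eq _ hq (Nat.odd_iff.mpr (by omega)) (div4 hn h1 t).2, R, Nat.add_sub_cancel]
  unfold poch
  congr 2 <;> refine prod_congr rfl fun i _ => ?_ <;> ring

variable [CharZero K] (L : Loc K)

theorem pair (a v : ℕ) (hv : ¬ L.n ∣ v) :
    L.U ((1 - 1 / L.q ^ v) * (1 - L.q ^ v)) ∧
    L.E 2 ((1 - (L.q ^ L.n) ^ a / L.q ^ v) * (1 - (L.q ^ L.n) ^ a * L.q ^ v))
      ((L.q ^ L.n) ^ a * ((1 - 1 / L.q ^ v) * (1 - L.q ^ v))) := by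
  have h0 := (U.pow (L := L) U.q v).2.2
  constructor
  · rw [show 1 - 1 / L.q ^ v = -((1 - L.q ^ v) / L.q ^ v) by field_simp; ring]
    exact ((U.sub hv).div (U.q.pow v)).neg.mul (U.sub hv)
  · have h : L.E 1 ((L.q ^ L.n) ^ a - 1) 0 := (qn_one a).of_sub (by ring)
    exact (h.mul_zero h).of_sub (by field_simp; ring)

theorem block (f : ℕ → K) (H a : ℕ) : ∏ j ∈ range (2 * H + 1), f (H + a * (2 * H + 1) + j + 1)
    = (∏ u ∈ range H, f (H + a * (2 * H + 1) + (H - 1 - u) + 1) * f ((a + 1) * (2 * H + 1) + (u + 1)))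
      * f ((a + 1) * (2 * H + 1)) := by
  rw [show 2 * H + 1 = H + (H + 1) by ring, prod_range_add, prod_range_succ', prod_mul_distrib,
    ← prod_range_reflect, mul_assoc]
  congr 2
  · exact prod_congr rfl fun u _ => by congr 1; ring
  · congr 1; ring

theorem W_step {n H M' : ℕ} (hn : Odd n) (hN : L.n = 2 * (2 * H) + 1) (hd : n ∣ L.n)
    (hH : 2 * H / n = 2 * M') (c : ℕ) :
    L.U (W (fun j => 1 - L.q ^ j) n (2 * H)) ∧
    L.E 2 (W (fun j => 1 - L.q ^ j) n (2 * H + 2 * c * L.n)) (W (fun j => 1 - L.q ^ j) n (2 * H)) := by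
  have hU : L.U (W (fun j => 1 - L.q ^ j) n (2 * H)) := U.prod _ _ fun j _ => by
    unfold alt
    split_ifs with h1 h2
    · exact U.one
    · exact (U.sub fun h => h1 (hd.trans h)).inv
    · exact U.sub fun h => h1 (hd.trans h)
  refine ⟨hU, ?_⟩
  induction c with
  | zero => exact E.of_eq (by simp)
  | succ c ih =>
    have hQ : L.U (L.q ^ L.n) := U.q.pow _
    have h1 : W (fun _ => L.q ^ L.n) n (2 * H) = 1 := by
      rw [W_eq _ (fun _ => hQ.2.2) hn hH]
      simp only [prod_const]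
      exact div_self (mul_ne_zero (pow_ne_zero _ hQ.2.2) (pow_ne_zero _ hQ.2.2))
    set f : ℕ → K := fun j => if n ∣ j then 1 else alt (fun j => 1 - L.q ^ j) j with hf
    have h2 := block f (2 * H) (2 * c)
    have h3 := block f (2 * H) (2 * c + 1)
    rw [← hN] at h2 h3
    have h4 : ∀ a, f (a * L.n) = 1 := fun a => if_pos (hd.mul_left a)
    have e : W (fun j => 1 - L.q ^ j) n (2 * H + 2 * (c + 1) * L.n)
        = W (fun j => 1 - L.q ^ j) n (2 * H + 2 * c * L.n)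
          * ((∏ j ∈ range L.n, f (2 * H + 2 * c * L.n + j + 1))
            * ∏ j ∈ range L.n, f (2 * H + (2 * c + 1) * L.n + j + 1)) := by
      rw [show 2 * H + 2 * (c + 1) * L.n = 2 * H + 2 * c * L.n + L.n + L.n by ring, W,
        prod_range_add, prod_range_add, mul_assoc]
      congr 2
      exact prod_congr rfl fun j _ => by rw [hf]; congr 3 <;> ring
    rw [e, h2, h3, h4, h4, mul_one, mul_one, ← prod_mul_distrib]
    refine (ih.mul (y' := 1) ?_ hU.1 (one_mem _)).trans (E.of_eq (mul_one _))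
    rw [← h1, W]
    refine E.prod _ (fun u hu => ?_) fun u _ => by
      unfold alt
      split_ifs
      exacts [one_mem _, hQ.2.1, hQ.1]
    have hu' := mem_range.mp hu
    have k1 : ∀ a, 2 * H + a * L.n + (2 * H - 1 - u) + 1 + (u + 1) = (a + 1) * L.n := fun a => by
      rw [add_mul a, one_mul]; omega
    have d1 : ∀ a, n ∣ 2 * H + a * L.n + (2 * H - 1 - u) + 1 ↔ n ∣ u + 1 := fun a =>
      ⟨fun h => (Nat.dvd_add_right h).mp (k1 a ▸ hd.mul_left _),
        fun h => (Nat.dvd_add_left h).mp (k1 a ▸ hd.mul_left _)⟩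
    have d2 : ∀ a, n ∣ a * L.n + (u + 1) ↔ n ∣ u + 1 := fun a => Nat.dvd_add_right (hd.mul_left _)
    have p1 : ∀ a, L.q ^ (2 * H + a * L.n + (2 * H - 1 - u) + 1)
        = (L.q ^ L.n) ^ (a + 1) / L.q ^ (u + 1) := fun a => by
      rw [eq_div_iff (pow_ne_zero _ L.q0), ← pow_add, k1, ← pow_mul, mul_comm]
    have p2 : ∀ a, L.q ^ (a * L.n + (u + 1)) = (L.q ^ L.n) ^ a * L.q ^ (u + 1) := fun a => by
      rw [pow_add, ← pow_mul, mul_comm a]
    simp only [hf, d1, d2]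
    split_ifs with h
    · exact E.of_eq (by simp)
    obtain ⟨hg, a1⟩ := pair L (2 * c + 1) (u + 1) fun h' => h (hd.trans h')
    obtain ⟨-, a2⟩ := pair L (2 * c + 1 + 1) (u + 1) fun h' => h (hd.trans h')
    have o1 : Odd ((2 * c + 1) * L.n) := by rw [hN]; exact (odd_two_mul_add_one _).mul (odd_two_mul_add_one _)
    have o2 : Even ((2 * c + 1 + 1) * L.n) := Even.mul_right (by grind) _
    have k2 := k1 (2 * c)
    have k3 := k1 (2 * c + 1)
    have := hg.2.2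
    have := hQ.2.2
    unfold alt
    simp only [p1, p2]
    rw [Nat.odd_iff] at o1
    rw [Nat.even_iff] at o2
    by_cases hv : Even (u + 1)
    · rw [if_pos hv]
      rw [Nat.even_iff] at hv
      rw [if_neg (by rw [Nat.even_iff]; omega), if_neg (by rw [Nat.even_iff]; omega),
        if_pos (by rw [Nat.even_iff]; omega), if_pos (by rw [Nat.even_iff]; omega), ← mul_inv]
      refine (a1.div a2 ((hQ.pow _).mul hg).1 ((hQ.pow _).mul hg)).of_sub ?_
      rw [mul_div_mul_right _ _ hg.2.2, pow_succ _ (2 * c + 1),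
        div_mul_cancel_left₀ (pow_ne_zero _ this), ← div_eq_mul_inv]
    · rw [if_neg hv]
      rw [Nat.even_iff] at hv
      rw [if_pos (by rw [Nat.even_iff]; omega), if_pos (by rw [Nat.even_iff]; omega),
        if_neg (by rw [Nat.even_iff]; omega), if_neg (by rw [Nat.even_iff]; omega), ← mul_inv]
      refine (a2.div a1 ((hQ.pow _).mul hg).1 ((hQ.pow _).mul hg)).of_sub ?_
      rw [mul_div_mul_right _ _ hg.2.2, pow_succ _ (2 * c + 1),
        mul_div_cancel_left₀ _ (pow_ne_zero _ this), inv_mul_eq_div]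

theorem result (n r s : ℕ) (hn : n % 4 = 1) (h1 : 1 < n) (hs : 0 < s) (hrs : s < r) :
    cyclotomic (n ^ s) ℚ ^ 2 ∣ (R RatFunc.X n r - R RatFunc.X n s : RatFunc ℚ).num ∧
      IsCoprime (R RatFunc.X n r - R RatFunc.X n s : RatFunc ℚ).denom
        (cyclotomic (n ^ s) ℚ ^ 2) := by
  have hN : 0 < n ^ s := by positivity
  apply cyc_out' hN
  obtain ⟨s, rfl⟩ : ∃ t, s = t + 1 := ⟨s - 1, by omega⟩
  obtain ⟨d, rfl⟩ : ∃ d, r = s + d + 1 := ⟨r - s - 1, by omega⟩
  have hq : ∀ j, 1 - (RatFunc.X : RatFunc ℚ) ^ (j + 1) ≠ 0 :=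
    fun j => (cycL _ hN).ne (j + 1) (by omega)
  obtain ⟨c, hc⟩ : ∃ c, n ^ d = 4 * c + 1 := ⟨n ^ d / 4, by have := (div4 hn h1 d).1; omega⟩
  obtain ⟨H, hH⟩ : ∃ H, n ^ (s + 1) = 4 * H + 1 :=
    ⟨n ^ (s + 1) / 4, by have := (div4 hn h1 (s + 1)).1; omega⟩
  have h2 := (div4 hn h1 s).2
  have e1 : (n ^ (s + 1) - 1) / 4 = H := by omega
  have e2 : 2 * ((n ^ (s + d + 1) - 1) / 4) = 2 * H + 2 * c * n ^ (s + 1) := by
    rw [show n ^ (s + d + 1) = 4 * (H + c * n ^ (s + 1)) + 1 by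
      rw [add_right_comm, pow_add, hc, hH]; ring, Nat.add_sub_cancel,
      Nat.mul_div_cancel_left _ (by norm_num)]
    ring
  rw [e1] at h2
  have := (W_step (cycL _ hN) (Nat.odd_iff.mpr (by omega)) (H := H) (by rw [← mul_assoc]; exact hH)
    (dvd_pow_self n (by omega)) h2 c).2
  rw [R_eq _ hq hn h1, R_eq _ hq hn h1, e1, e2]
  exact this

end Pool.Agent.Results.MP_74870a_nt.Products
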